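import Pool.Agent.Y862.SQ.Stm
import Pool.Agent.TH464.PO.Comb
import Pool.Agent.H373R2.T7.Fund

set_option autoImplicit false

/-!
# The Poisson law for `n ^ 2 + h`
-/

namespace Pool.Agent.Y486.SQ

open Finset Pool.Agent.H373R2.T7 Pool.Agent.TH464.PO Pool.Agent.Y862.SQ

/-- the condition at the points of `H`, base point `Z` -/
def Qz (Z : ℕ) (H : Finset ℕ) (p n : ℕ) : Prop := ∃ h ∈ H, p ∣ (n + Z) ^ 2 + h

lemma Qz_per (Z : ℕ) (H : Finset ℕ) (p n : ℕ) : Qz Z H p n ↔ Qz Z H p (n % p) := by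
  unfold Qz
  apply exists_congr
  intro h
  apply and_congr_right
  intro _
  have h1 : (n + Z) ^ 2 + h ≡ (n % p + Z) ^ 2 + h [MOD p] := by
    apply Nat.ModEq.add_right
    apply Nat.ModEq.pow
    apply Nat.ModEq.add_right
    exact (Nat.mod_modEq n p).symm
  exact Nat.ModEq.dvd_iff h1 (dvd_refl p)

open Classical in
lemma two_roots (Z h p : ℕ) (hp : p.Prime) :
    ((range p).filter (fun r => p ∣ (r + Z) ^ 2 + h)).card ≤ 2 := by
  by_cases hne : ((range p).filter (fun r => p ∣ (r + Z) ^ 2 + h)).Nonempty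
  · obtain ⟨r0, hr0⟩ := hne
    rw [mem_filter, mem_range] at hr0
    have hsub : (range p).filter (fun r => p ∣ (r + Z) ^ 2 + h) ⊆
        {r0, ((-((r0 : ℤ) + 2 * Z)) % (p : ℤ)).toNat} := by
      intro r hr
      rw [mem_filter, mem_range] at hr
      rw [mem_insert, mem_singleton]
      have h1 : (p : ℤ) ∣ ((r : ℤ) + Z) ^ 2 + h := by exact_mod_cast hr.2
      have h2 : (p : ℤ) ∣ ((r0 : ℤ) + Z) ^ 2 + h := by exact_mod_cast hr0.2
      have h3 : (p : ℤ) ∣ ((r : ℤ) - r0) * ((r : ℤ) + r0 + 2 * Z) := by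
        have := dvd_sub h1 h2
        have e : ((r : ℤ) + Z) ^ 2 + h - (((r0 : ℤ) + Z) ^ 2 + h) =
          ((r : ℤ) - r0) * ((r : ℤ) + r0 + 2 * Z) := by ring
        rwa [e] at this
      have hp0 : (0 : ℤ) < p := by exact_mod_cast hp.pos
      rcases (Nat.prime_iff_prime_int.mp hp).dvd_or_dvd h3 with h4 | h4
      · left
        have h6 : (r : ℤ) % p = (r0 : ℤ) % p :=
          Int.emod_eq_emod_iff_emod_sub_eq_zero.mpr (Int.emod_eq_zero_of_dvd h4)
        rw [Int.emod_eq_of_lt (Int.natCast_nonneg r) (by exact_mod_cast hr.1),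
          Int.emod_eq_of_lt (Int.natCast_nonneg r0) (by exact_mod_cast hr0.1)] at h6
        exact_mod_cast h6
      · right
        have h6 : (r : ℤ) % p = (-((r0 : ℤ) + 2 * Z)) % p := by
          apply Int.emod_eq_emod_iff_emod_sub_eq_zero.mpr
          apply Int.emod_eq_zero_of_dvd
          have e : (r : ℤ) - -((r0 : ℤ) + 2 * Z) = (r : ℤ) + r0 + 2 * Z := by ring
          rw [e]
          exact h4
        rw [Int.emod_eq_of_lt (Int.natCast_nonneg r) (by exact_mod_cast hr.1)] at h6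
        rw [← h6, Int.toNat_natCast]
    exact (card_le_card hsub).trans card_le_two
  · rw [not_nonempty_iff_eq_empty] at hne
    rw [hne]
    simp

open Classical in
lemma Qz_perB (Z : ℕ) (H : Finset ℕ) : PerB (Qz Z H) (H.card * 2) := by
  refine ⟨Qz_per Z H, fun p hp => ?_⟩
  have h1 : (range p).filter (fun r => Qz Z H p r) ⊆
      H.biUnion (fun h => (range p).filter (fun r => p ∣ (r + Z) ^ 2 + h)) := by
    intro r hr
    rw [mem_filter] at hr
    obtain ⟨hr1, h, hh, hq⟩ := hr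
    rw [mem_biUnion]
    exact ⟨h, hh, mem_filter.2 ⟨hr1, hq⟩⟩
  have h2 := Finset.card_biUnion_le_card_mul H
    (fun h => (range p).filter (fun r => p ∣ (r + Z) ^ 2 + h)) 2 (by
      intro a _
      exact two_roots Z a p hp)
  unfold nuB
  refine le_trans ?_ h2
  convert card_le_card h1

open Classical in
lemma nuB_Qz (Z : ℕ) (H : Finset ℕ) (p : ℕ) : nuB (Qz Z H) p = rH H p := by
  have hper : Function.Periodic (fun n => Qz 0 H p n) p := by
    intro n
    have h1 := Qz_per 0 H p (n + p)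
    rw [Nat.add_mod_right, ← Qz_per 0 H p n] at h1
    exact propext h1
  have h2 := Nat.filter_Ico_card_eq_of_periodic Z p (fun n => Qz 0 H p n) hper
  have h3 := Nat.filter_Ico_card_eq_of_periodic 0 p (fun n => Qz 0 H p n) hper
  rw [zero_add, Nat.Ico_zero_eq_range] at h3
  have h4 : rH H p = ((Ico Z (Z + p)).filter (fun n => Qz 0 H p n)).card := by
    rw [h2, ← h3]
    unfold rH
    congr
  rw [h4]
  unfold nuB
  apply Finset.card_bij (fun r _ => r + Z)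
  · intro r hr
    rw [mem_filter, mem_range] at hr
    rw [mem_filter, mem_Ico]
    exact ⟨by omega, hr.2⟩
  · intro r _ r' _ hrr
    omega
  · intro n hn
    rw [mem_filter, mem_Ico] at hn
    refine ⟨n - Z, ?_, by omega⟩
    rw [mem_filter, mem_range]
    refine ⟨by omega, ?_⟩
    have h5 := hn.2
    unfold Qz at h5 ⊢
    rw [Nat.sub_add_cancel hn.1.1]
    rwa [Nat.add_zero] at h5

lemma VH_eq (Z : ℕ) (H : Finset ℕ) (y : ℕ) :
    ∏ p ∈ pz y, (1 - (nuB (Qz Z H) p : ℝ) / p) = VH H y := by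
  unfold VH
  apply Finset.prod_congr rfl
  intro p _
  rw [nuB_Qz]

lemma rH_le (H : Finset ℕ) (p : ℕ) : rH H p ≤ p := by
  unfold rH
  exact (card_filter_le _ _).trans (by simp)

lemma VH_nonneg (H : Finset ℕ) (y : ℕ) : 0 ≤ VH H y := by
  unfold VH
  apply Finset.prod_nonneg
  intro p hp
  rw [sub_nonneg]
  apply div_le_one_of_le₀ _ (Nat.cast_nonneg _)
  exact_mod_cast rH_le H p

lemma V1_nonneg (y : ℕ) : 0 ≤ V1 y := by
  unfold V1
  apply Finset.prod_nonneg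
  intro p hp
  have h1 : 1 ≤ p := (mem_Icc.1 (mem_filter.1 hp).1).1
  rw [sub_nonneg]
  apply div_le_one_of_le₀ _ (Nat.cast_nonneg _)
  exact_mod_cast h1

open Classical in
/-- binomial moments as sums over sets of shifts -/
lemma moment_eq' (Z y k T Y : ℕ) :
    ∑ n ∈ Icc 1 Y, ((Ns y T (n + Z)).choose k : ℝ) =
      ∑ H ∈ powersetCard k (Icc 1 T),
        (((Icc 1 Y).filter (fun n => ∀ p ∈ pz y, ¬ Qz Z H p n)).card : ℝ) := by
  have h1 : ∀ H ∈ powersetCard k (Icc 1 T),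
      (((Icc 1 Y).filter (fun n => ∀ p ∈ pz y, ¬ Qz Z H p n)).card : ℝ) =
      ∑ n ∈ Icc 1 Y, if (∀ h ∈ H, ∀ p ∈ pr y, ¬ p ∣ (n + Z) ^ 2 + h) then (1 : ℝ) else 0 := by
    intro H _
    rw [Finset.sum_ite, Finset.sum_const_zero, add_zero, Finset.sum_const, nsmul_eq_mul, mul_one]
    congr 2
    apply Finset.filter_congr
    intro m _
    unfold Qz
    constructor
    · intro h2 h hh p hp hd
      exact h2 p hp ⟨h, hh, hd⟩
    · rintro h2 p hp ⟨h, hh, hd⟩
      exact h2 h hh p hp hd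
  rw [Finset.sum_congr rfl h1, Finset.sum_comm]
  apply Finset.sum_congr rfl
  intro m _
  rw [Finset.sum_ite, Finset.sum_const_zero, add_zero, Finset.sum_const, nsmul_eq_mul, mul_one]
  unfold Ns
  rw [← Finset.card_powersetCard]
  congr 2
  ext H
  rw [mem_filter, mem_powersetCard, mem_powersetCard]
  constructor
  · rintro ⟨a1, a2⟩
    exact ⟨⟨fun h hh => (mem_filter.1 (a1 hh)).1, a2⟩, fun h hh => (mem_filter.1 (a1 hh)).2⟩
  · rintro ⟨⟨a1, a2⟩, a3⟩
    exact ⟨fun h hh => mem_filter.2 ⟨a1 hh, a3 h hh⟩, a2⟩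

open Classical in
/-- **Binomial moments.** -/
theorem moment' (hA : S_AVG) (k : ℕ) (η : ℝ) (hη : 0 < η) (hη1 : η ≤ 1) :
    ∃ (K0 y0 T0 : ℕ), ∀ Z Y y T : ℕ, y0 ≤ y → y ^ K0 ≤ Y → T0 ≤ T →
      |∑ n ∈ Icc 1 Y, ((Ns y T (n + Z)).choose (k + 1) : ℝ) -
        Y * ((T * V1 y) ^ (k + 1) / (k + 1).factorial)| ≤
        η * Y * ((T * V1 y) ^ (k + 1) / (k + 1).factorial) + T ^ (k + 1) * √(Y : ℝ) := by
  obtain ⟨K0, x0, hK0, hfund⟩ := sys_fund ((k + 1) * 2) (by omega) (η / 4) (by positivity)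
  obtain ⟨w, T0, hsing⟩ := hA k (η / 4) (by positivity)
  refine ⟨K0, max x0 w, T0, ?_⟩
  intro Z Y y T hy hyY hT
  have hs := hsing T hT y ((le_max_right _ _).trans hy)
  rw [moment_eq']
  obtain ⟨S, hS⟩ : ∃ S, S = ∑ H ∈ powersetCard (k + 1) (Icc 1 T), VH H y := ⟨_, rfl⟩
  obtain ⟨W, hW⟩ : ∃ W : ℝ, W = (T * V1 y) ^ (k + 1) / (k + 1).factorial := ⟨_, rfl⟩
  rw [← hS, ← hW] at hs
  rw [← hW]
  have hV0 := V1_nonneg y
  have hW0 : 0 ≤ W := by rw [hW]; positivity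
  have hY0 : (0 : ℝ) ≤ Y := Nat.cast_nonneg Y
  have h1 : |∑ H ∈ powersetCard (k + 1) (Icc 1 T),
      (((Icc 1 Y).filter (fun n => ∀ p ∈ pz y, ¬ Qz Z H p n)).card : ℝ) - Y * S| ≤
      η / 4 * (Y * S) + T ^ (k + 1) * √(Y : ℝ) := by
    have e : Y * S = ∑ H ∈ powersetCard (k + 1) (Icc 1 T), (Y : ℝ) * VH H y := by
      rw [hS, Finset.mul_sum]
    rw [e, ← Finset.sum_sub_distrib]
    refine (Finset.abs_sum_le_sum_abs _ _).trans ?_
    have h2 : ∀ H ∈ powersetCard (k + 1) (Icc 1 T),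
        |(((Icc 1 Y).filter (fun n => ∀ p ∈ pz y, ¬ Qz Z H p n)).card : ℝ) - Y * VH H y| ≤
        η / 4 * (Y * VH H y) + √(Y : ℝ) := by
      intro H hH
      rw [mem_powersetCard] at hH
      have hper := Qz_perB Z H
      rw [hH.2] at hper
      have h3 := hfund Y y ((le_max_left _ _).trans hy) hyY (Qz Z H) hper Y
      rw [VH_eq] at h3
      convert h3
    refine (Finset.sum_le_sum h2).trans ?_
    rw [Finset.sum_add_distrib, ← Finset.mul_sum, Finset.sum_const, nsmul_eq_mul]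
    have h3 : ((powersetCard (k + 1) (Icc 1 T)).card : ℝ) ≤ (T : ℝ) ^ (k + 1) := by
      rw [card_powersetCard, Nat.card_Icc, Nat.add_sub_cancel]
      exact_mod_cast Nat.choose_le_pow T (k + 1)
    have h4 := mul_le_mul_of_nonneg_right h3 (Real.sqrt_nonneg (Y : ℝ))
    linarith
  have h5 : |Y * S - Y * W| ≤ η / 4 * (Y * W) := by
    rw [← mul_sub, abs_mul, abs_of_nonneg hY0]
    calc (Y : ℝ) * |S - W| ≤ Y * (η / 4 * W) := mul_le_mul_of_nonneg_left hs hY0
      _ = _ := by ring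
  have h6 : Y * S ≤ 2 * (Y * W) := by
    have h7 := (abs_le.1 h5).2
    have h8 : 0 ≤ Y * W := mul_nonneg hY0 hW0
    nlinarith
  have h8 : 0 ≤ Y * W := mul_nonneg hY0 hW0
  have h9 := abs_sub_le (∑ H ∈ powersetCard (k + 1) (Icc 1 T),
      (((Icc 1 Y).filter (fun n => ∀ p ∈ pz y, ¬ Qz Z H p n)).card : ℝ)) (Y * S) (Y * W)
  have h10 : η / 4 * (Y * S) ≤ η / 4 * (2 * (Y * W)) :=
    mul_le_mul_of_nonneg_left h6 (by positivity)
  have h11 : 0 ≤ η * (Y * W) := by positivity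
  calc _ ≤ _ := h9
    _ ≤ η / 4 * (2 * (Y * W)) + T ^ (k + 1) * √(Y : ℝ) + η / 4 * (Y * W) := by linarith
    _ ≤ _ := by linarith

open Classical in
/-- **The Poisson law.** -/
theorem t_LAW (h1 : S_AVG) : S_LAW := by
  intro x0 ε hx0 hε
  obtain ⟨R, η, hη, htv⟩ := law_tv x0 ε hx0 hε
  obtain ⟨X1, hX1⟩ : ∃ X1 : ℝ, X1 = (1 + x0) ^ (R + 1) := ⟨_, rfl⟩
  have hX1pos : 1 ≤ X1 := by rw [hX1]; exact one_le_pow₀ (by linarith)
  obtain ⟨η1, hη1⟩ : ∃ η1 : ℝ, η1 = min 1 (η / (2 * X1)) := ⟨_, rfl⟩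
  have hη10 : 0 < η1 := by rw [hη1]; positivity
  have hη11 : η1 ≤ 1 := by rw [hη1]; exact min_le_left _ _
  have hη12 : η1 * X1 ≤ η / 2 := by
    have : η1 ≤ η / (2 * X1) := by rw [hη1]; exact min_le_right _ _
    rw [le_div_iff₀ (by positivity)] at this
    linarith
  choose K0 y0 T0 hmom using fun k => moment' h1 k η1 hη10 hη11
  obtain ⟨y1, hy1⟩ : ∃ y1 : ℕ, (2 / η) ^ 4 ≤ y1 := exists_nat_ge _
  refine ⟨(∑ k ∈ range R, K0 k) + 1, (∑ k ∈ range R, y0 k) + y1 + 1, (∑ k ∈ range R, T0 k) + 1,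
    4 * (R + 1), ?_⟩
  intro Z Y y T hy hyY hT hTR hx A
  obtain ⟨x, hxdef⟩ : ∃ x, x = T * V1 y := ⟨_, rfl⟩
  rw [← hxdef] at hx ⊢
  have hx00 : 0 ≤ x := by
    rw [hxdef]
    exact mul_nonneg (Nat.cast_nonneg _) (V1_nonneg y)
  have hy1' : 1 ≤ y := by omega
  have hT1 : 1 ≤ T := by omega
  have hyY' : y ≤ Y := by
    calc y = y ^ 1 := (pow_one y).symm
      _ ≤ y ^ ((∑ k ∈ range R, K0 k) + 1) := Nat.pow_le_pow_right hy1' (by omega)
      _ ≤ Y := hyY
  have hY1 : (2 / η) ^ 4 ≤ (Y : ℝ) := hy1.trans (by exact_mod_cast (by omega : y1 ≤ Y))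
  have hYpos : (0 : ℝ) < Y := lt_of_lt_of_le (by positivity) hY1
  have hs4 : 2 / η ≤ √(√(Y : ℝ)) := by
    apply Real.le_sqrt_of_sq_le
    apply Real.le_sqrt_of_sq_le
    calc ((2 / η) ^ 2) ^ 2 = (2 / η) ^ 4 := by ring
      _ ≤ (Y : ℝ) := hY1
  have hT4 : (T : ℝ) ^ (R + 1) ≤ √(√(Y : ℝ)) := by
    apply Real.le_sqrt_of_sq_le
    apply Real.le_sqrt_of_sq_le
    calc (((T : ℝ) ^ (R + 1)) ^ 2) ^ 2 = (T : ℝ) ^ (4 * (R + 1)) := by
          rw [← pow_mul, ← pow_mul]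
          congr 1
          ring
      _ ≤ Y := by exact_mod_cast hTR
  have hTY : (T : ℝ) ^ (R + 1) * √(Y : ℝ) ≤ η / 2 * Y := by
    have e1 : √(√(Y : ℝ)) * √(√(Y : ℝ)) = √(Y : ℝ) := Real.mul_self_sqrt (Real.sqrt_nonneg _)
    have e2 : √(Y : ℝ) * √(Y : ℝ) = Y := Real.mul_self_sqrt hYpos.le
    have h1 : (T : ℝ) ^ (R + 1) * (2 / η) ≤ √(Y : ℝ) := by
      rw [← e1]
      exact mul_le_mul hT4 hs4 (by positivity) (Real.sqrt_nonneg _)
    calc (T : ℝ) ^ (R + 1) * √(Y : ℝ) = η / 2 * ((T : ℝ) ^ (R + 1) * (2 / η)) * √(Y : ℝ) := by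
          field_simp
      _ ≤ η / 2 * √(Y : ℝ) * √(Y : ℝ) := by gcongr
      _ = η / 2 * Y := by rw [mul_assoc, e2]
  have hcard : ((Icc 1 Y).card : ℝ) = Y := by
    rw [Nat.card_Icc, Nat.add_sub_cancel]
  have hmain := htv (Icc 1 Y) (fun n => Ns y T (n + Z)) x hx00 hx (by
    intro k hk
    rw [hcard]
    rcases k with _ | k
    · simp
      positivity
    · have hkR : k ∈ range R := mem_range.2 (by omega)
      have hKk : K0 k ≤ ∑ k ∈ range R, K0 k := Finset.single_le_sum (fun _ _ => Nat.zero_le _) hkR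
      have hyk : y0 k ≤ ∑ k ∈ range R, y0 k := Finset.single_le_sum (fun _ _ => Nat.zero_le _) hkR
      have hTk : T0 k ≤ ∑ k ∈ range R, T0 k := Finset.single_le_sum (fun _ _ => Nat.zero_le _) hkR
      have h1 := hmom k Z Y y T (by omega)
        ((Nat.pow_le_pow_right hy1' (by omega)).trans hyY) (by omega)
      rw [← hxdef] at h1
      refine h1.trans ?_
      have h2 : x ^ (k + 1) / ((k + 1).factorial : ℝ) ≤ X1 := by
        have hf1 : (1 : ℝ) ≤ (k + 1).factorial := by exact_mod_cast Nat.factorial_pos (k + 1)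
        calc x ^ (k + 1) / ((k + 1).factorial : ℝ) ≤ x ^ (k + 1) := div_le_self (by positivity) hf1
          _ ≤ (1 + x0) ^ (k + 1) := pow_le_pow_left₀ hx00 (by linarith) _
          _ ≤ (1 + x0) ^ (R + 1) := pow_le_pow_right₀ (by linarith) (by omega)
          _ = X1 := hX1.symm
      have h3 : (T : ℝ) ^ (k + 1) * √(Y : ℝ) ≤ η / 2 * Y := by
        refine le_trans ?_ hTY
        apply mul_le_mul_of_nonneg_right _ (Real.sqrt_nonneg _)
        apply pow_le_pow_right₀ (by exact_mod_cast hT1) (by omega)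
      have h4 : η1 * Y * (x ^ (k + 1) / ((k + 1).factorial : ℝ)) ≤ η / 2 * Y := by
        calc η1 * Y * (x ^ (k + 1) / ((k + 1).factorial : ℝ)) ≤ η1 * Y * X1 :=
              mul_le_mul_of_nonneg_left h2 (by positivity)
          _ = η1 * X1 * Y := by ring
          _ ≤ η / 2 * Y := by gcongr
      linarith) A
  rw [hcard] at hmain
  have hcount : ((Ioc Z (Z + Y)).filter (fun n => Ns y T n ∈ A)).card =
      ((Icc 1 Y).filter (fun n => Ns y T (n + Z) ∈ A)).card := by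
    symm
    apply Finset.card_bij (fun n _ => n + Z)
    · intro n hn
      rw [mem_filter, mem_Icc] at hn
      rw [mem_filter, mem_Ioc]
      exact ⟨by omega, hn.2⟩
    · intro a _ b _ hab
      omega
    · intro n hn
      rw [mem_filter, mem_Ioc] at hn
      refine ⟨n - Z, ?_, by omega⟩
      rw [mem_filter, mem_Icc, show n - Z + Z = n by omega]
      exact ⟨by omega, hn.2⟩
  rw [hcount]
  exact hmain

end Pool.Agent.Y486.SQ
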